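import Pool.Agent.W188.GP.Stm

/-! GP-LL: from one line to another line. -/

set_option autoImplicit false

open Complex MeasureTheory Set Filter Topology

namespace Pool.Agent.W108.GPL

open Pool.Agent.W188.GP Pool.Agent.W188.QS

/-! ### general lemmas -/

theorem schur (p : ℝ) (hp : 1 ≤ p) (S S' : Finset ℤ) (κ : ℤ → ℤ → ℝ) (hκ : ∀ j n, 0 ≤ κ j n)
    (z : ℤ → ℝ) (hz : ∀ n, 0 ≤ z n) (K : ℝ) (hK : 0 < K) (h1 : ∀ j ∈ S', ∑ n ∈ S, κ j n ≤ K)
    (h2 : ∀ n ∈ S, ∑ j ∈ S', κ j n ≤ K) :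
    ∑ j ∈ S', (∑ n ∈ S, κ j n * z n) ^ p ≤ K ^ p * ∑ n ∈ S, z n ^ p := by
  have hp0 : 0 < p := by linarith
  have hrow : ∀ j ∈ S', (∑ n ∈ S, κ j n * z n) ^ p ≤ K ^ (p - 1) * ∑ n ∈ S, κ j n * z n ^ p := by
    intro j hj
    have hR0 : 0 ≤ ∑ n ∈ S, κ j n := Finset.sum_nonneg fun n _ => hκ j n
    have hs0 : 0 ≤ ∑ n ∈ S, κ j n * z n ^ p :=
      Finset.sum_nonneg fun n _ => mul_nonneg (hκ j n) (Real.rpow_nonneg (hz n) p)
    rcases hR0.eq_or_lt with hR | hR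
    · have h3 : ∀ n ∈ S, κ j n = 0 := (Finset.sum_eq_zero_iff_of_nonneg fun n _ => hκ j n).1 hR.symm
      have h4 : ∑ n ∈ S, κ j n * z n = 0 := Finset.sum_eq_zero fun n hn => by rw [h3 n hn, zero_mul]
      rw [h4, Real.zero_rpow hp0.ne']
      exact mul_nonneg (Real.rpow_nonneg hK.le _) hs0
    · set R := ∑ n ∈ S, κ j n with hRd
      have h3 : ∑ n ∈ S, κ j n * z n = R * ∑ n ∈ S, κ j n / R * z n := by
        rw [Finset.mul_sum]
        refine Finset.sum_congr rfl fun n _ => ?_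
        field_simp
      have h4 : (∑ n ∈ S, κ j n / R * z n) ^ p ≤ ∑ n ∈ S, κ j n / R * z n ^ p := by
        refine Real.rpow_arith_mean_le_arith_mean_rpow S _ _ (fun n _ => div_nonneg (hκ j n) hR.le)
          ?_ (fun n _ => hz n) hp
        rw [← Finset.sum_div, ← hRd, div_self hR.ne']
      have h5 : 0 ≤ ∑ n ∈ S, κ j n / R * z n :=
        Finset.sum_nonneg fun n _ => mul_nonneg (div_nonneg (hκ j n) hR.le) (hz n)
      rw [h3, Real.mul_rpow hR.le h5]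
      calc R ^ p * (∑ n ∈ S, κ j n / R * z n) ^ p ≤ R ^ p * ∑ n ∈ S, κ j n / R * z n ^ p :=
            mul_le_mul_of_nonneg_left h4 (Real.rpow_nonneg hR.le _)
        _ = R ^ (p - 1) * ∑ n ∈ S, κ j n * z n ^ p := by
            rw [Real.rpow_sub_one hR.ne', Finset.mul_sum, Finset.mul_sum]
            refine Finset.sum_congr rfl fun n _ => ?_
            field_simp
        _ ≤ K ^ (p - 1) * ∑ n ∈ S, κ j n * z n ^ p :=
            mul_le_mul_of_nonneg_right (Real.rpow_le_rpow hR.le (h1 j hj) (by linarith)) hs0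
  calc ∑ j ∈ S', (∑ n ∈ S, κ j n * z n) ^ p ≤
      ∑ j ∈ S', K ^ (p - 1) * ∑ n ∈ S, κ j n * z n ^ p := Finset.sum_le_sum hrow
    _ = K ^ (p - 1) * ∑ n ∈ S, (∑ j ∈ S', κ j n) * z n ^ p := by
        rw [← Finset.mul_sum, Finset.sum_comm]
        congr 1
        refine Finset.sum_congr rfl fun n _ => ?_
        rw [Finset.sum_mul]
    _ ≤ K ^ (p - 1) * ∑ n ∈ S, K * z n ^ p := by
        refine mul_le_mul_of_nonneg_left (Finset.sum_le_sum fun n hn => ?_) (Real.rpow_nonneg hK.le _)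
        exact mul_le_mul_of_nonneg_right (h2 n hn) (Real.rpow_nonneg (hz n) p)
    _ = K ^ p * ∑ n ∈ S, z n ^ p := by
        rw [← Finset.mul_sum, ← mul_assoc, Real.rpow_sub_one hK.ne', div_mul_cancel₀ _ hK.ne']

theorem three (p a b c : ℝ) (hp : 0 < p) (ha : 0 ≤ a) (hb : 0 ≤ b) (hc : 0 ≤ c) :
    (a + b + c) ^ p ≤ 3 ^ p * (a ^ p + b ^ p + c ^ p) := by
  have hm : ∀ m : ℝ, 0 ≤ m → a ≤ m → b ≤ m → c ≤ m → m ^ p ≤ a ^ p + b ^ p + c ^ p →
      (a + b + c) ^ p ≤ 3 ^ p * (a ^ p + b ^ p + c ^ p) := by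
    intro m hm h1 h2 h3 h4
    calc (a + b + c) ^ p ≤ (3 * m) ^ p := Real.rpow_le_rpow (by positivity) (by linarith) hp.le
      _ = 3 ^ p * m ^ p := Real.mul_rpow (by norm_num) hm
      _ ≤ _ := mul_le_mul_of_nonneg_left h4 (by positivity)
  have ha' := Real.rpow_nonneg ha p
  have hb' := Real.rpow_nonneg hb p
  have hc' := Real.rpow_nonneg hc p
  rcases le_total a b with h1 | h1
  · rcases le_total b c with h2 | h2
    · exact hm c hc (h1.trans h2) h2 le_rfl (by linarith)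
    · exact hm b hb h1 le_rfl h2 (by linarith)
  · rcases le_total a c with h2 | h2
    · exact hm c hc h2 (h1.trans h2) le_rfl (by linarith)
    · exact hm a ha le_rfl h1 h2 (by linarith)

theorem ksum : ∃ K0 : ℝ, 0 < K0 ∧ ∀ (S : Finset ℤ) (j : ℤ),
    ∑ n ∈ S, 1 / (1 + ((n : ℝ) - j) ^ 2) ≤ K0 := by
  have hs : Summable fun m : ℤ => 1 / (1 + (m : ℝ) ^ 2) := by
    have h1 : Summable fun m : ℤ => 1 / (m : ℝ) ^ 2 := Real.summable_one_div_int_pow.2 (by norm_num)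
    have h2 : Summable fun m : ℤ => if m = 0 then (1 : ℝ) else 0 :=
      summable_of_ne_finset_zero (s := {0}) fun m hm => if_neg (by simpa using hm)
    refine Summable.of_nonneg_of_le (fun m => by positivity) (fun m => ?_) (h1.add h2)
    by_cases hm : m = 0
    · subst hm
      simp
    · have hm' : (m : ℝ) ≠ 0 := by exact_mod_cast hm
      rw [if_neg hm, add_zero]
      have h3 : (0 : ℝ) < (m : ℝ) ^ 2 := by positivity
      exact one_div_le_one_div_of_le h3 (by linarith)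
  refine ⟨(∑' m : ℤ, 1 / (1 + (m : ℝ) ^ 2)) + 1, ?_, fun S j => ?_⟩
  · have : 0 ≤ ∑' m : ℤ, 1 / (1 + (m : ℝ) ^ 2) := tsum_nonneg fun m => by positivity
    linarith
  · have h1 := (Equiv.subRight j).tsum_eq (fun m : ℤ => 1 / (1 + (m : ℝ) ^ 2))
    have h2 : Summable ((fun m : ℤ => 1 / (1 + (m : ℝ) ^ 2)) ∘ (Equiv.subRight j)) :=
      (Equiv.subRight j).summable_iff.2 hs
    have h3 := h2.sum_le_tsum S (fun m _ => by
      show 0 ≤ 1 / (1 + (((Equiv.subRight j) m : ℤ) : ℝ) ^ 2)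
      positivity)
    have h4 : ∑ n ∈ S, 1 / (1 + ((n : ℝ) - j) ^ 2) =
        ∑ n ∈ S, ((fun m : ℤ => 1 / (1 + (m : ℝ) ^ 2)) ∘ (Equiv.subRight j)) n := by
      refine Finset.sum_congr rfl fun n _ => ?_
      show _ = 1 / (1 + (((n - j : ℤ)) : ℝ) ^ 2)
      push_cast
      rfl
    rw [h4]
    have h5 : ∑' n : ℤ, ((fun m : ℤ => 1 / (1 + (m : ℝ) ^ 2)) ∘ (Equiv.subRight j)) n =
        ∑' m : ℤ, 1 / (1 + (m : ℝ) ^ 2) := h1
    rw [h5] at h3
    linarith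

theorem ZZ_nonneg (t : ℝ) : 0 ≤ ZZ t := norm_nonneg _

theorem DD_shift (p γ a b : ℝ) (m : ℤ) : DD p (γ + m) a b = DD p γ a b := by
  unfold DD nd
  have h1 : ∀ t : ℝ, ⌊vv t - (γ + m)⌋ = ⌊vv t - γ⌋ - m := by
    intro t
    rw [← Int.floor_sub_intCast]
    congr 1
    ring
  rw [h1, h1]
  have h2 : Finset.Ioc ⌊vv a - γ⌋ ⌊vv b - γ⌋ =
      (Finset.Ioc (⌊vv a - γ⌋ - m) (⌊vv b - γ⌋ - m)).image (fun n => n + m) := by
    ext n
    simp only [Finset.mem_image, Finset.mem_Ioc]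
    constructor
    · intro h
      exact ⟨n - m, ⟨by omega, by omega⟩, by ring⟩
    · rintro ⟨n', h, rfl⟩
      omega
  rw [h2, Finset.sum_image (fun x _ y _ h => by simpa using h)]
  refine Finset.sum_congr rfl fun n _ => ?_
  congr 3
  push_cast
  ring

theorem DD_nonneg (p γ a b : ℝ) : 0 ≤ DD p γ a b :=
  Finset.sum_nonneg fun _ _ => Real.rpow_nonneg (ZZ_nonneg _) _

theorem abs_sin_shift (x : ℝ) (j : ℤ) : |Real.sin (Real.pi * ((j : ℝ) + x))| = |Real.sin (Real.pi * x)| := by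
  have h1 : Real.pi * ((j : ℝ) + x) = Real.pi * x + j * Real.pi := by ring
  rw [h1, Real.sin_add_int_mul_pi, abs_mul]
  have h2 : |((-1 : ℝ)) ^ j| = 1 := by
    rcases Int.even_or_odd j with h | h
    · rw [h.neg_one_zpow]; simp
    · rw [h.neg_one_zpow]; simp
  rw [h2, one_mul]

/-- Lipschitz bound for the phase -/
theorem vv_lip (h1 : StTau) (a b B : ℝ) (ha : 100 ≤ a) (hab : a ≤ b) (hB : b ≤ B) :
    vv b - vv a ≤ Real.log B / (2 * Real.pi) * (b - a) := by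
  obtain ⟨-, hvc, -, -, hvd, -, -, -, -, -, -, hll, -⟩ := h1
  rcases hab.eq_or_lt with h | h
  · rw [h]
    simp
  · obtain ⟨c, hc, hc'⟩ := exists_hasDerivAt_eq_slope vv (fun t => lamE t / (2 * Real.pi)) h
      hvc.continuousOn (fun t _ => hvd t)
    have h2 : lamE c ≤ Real.log B := by
      refine (hll c (by linarith [hc.1])).2.trans (Real.log_le_log (by linarith [hc.1]) ?_)
      linarith [hc.2]
    have h3 : vv b - vv a = lamE c / (2 * Real.pi) * (b - a) := by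
      have : (0 : ℝ) < b - a := by linarith
      rw [hc']
      field_simp
    rw [h3]
    refine mul_le_mul_of_nonneg_right ?_ (by linarith)
    exact div_le_div_of_nonneg_right h2 (by positivity)

theorem vv_lip_abs (h1 : StTau) (a b B : ℝ) (ha : 100 ≤ a) (hb : 100 ≤ b) (haB : a ≤ B)
    (hbB : b ≤ B) : |vv b - vv a| ≤ Real.log B / (2 * Real.pi) * |b - a| := by
  have hmono := h1.1.monotone
  rcases le_total a b with h | h
  · rw [abs_of_nonneg (sub_nonneg.2 (hmono h)), abs_of_nonneg (sub_nonneg.2 h)]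
    exact vv_lip h1 a b B ha h hbB
  · rw [abs_sub_comm, abs_sub_comm b a, abs_of_nonneg (sub_nonneg.2 (hmono h)),
      abs_of_nonneg (sub_nonneg.2 h)]
    exact vv_lip h1 b a B hb h haB

theorem ker_bound (L x u : ℝ) (n j : ℤ) (hL : 1 ≤ L) (hx0 : 0 ≤ x) (hx1 : x ≤ 1)
    (hu : |(n : ℝ) - j - x| ≤ L * |u|) :
    Real.exp (-u ^ 2 / 2) ≤ 4 * L ^ 2 * (1 / (1 + ((n : ℝ) - j) ^ 2)) := by
  have h1 : Real.exp (-u ^ 2 / 2) ≤ 1 / (1 + u ^ 2 / 2) := by
    have h2 : 1 + u ^ 2 / 2 ≤ Real.exp (u ^ 2 / 2) := by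
      have := Real.add_one_le_exp (u ^ 2 / 2)
      linarith
    rw [show -u ^ 2 / 2 = -(u ^ 2 / 2) by ring, Real.exp_neg, ← one_div]
    exact one_div_le_one_div_of_le (by positivity) h2
  refine h1.trans ?_
  rw [mul_one_div, div_le_div_iff₀ (by positivity) (by positivity)]
  have h3 : ((n : ℝ) - j - x) ^ 2 ≤ L ^ 2 * u ^ 2 := by
    have h4 := pow_le_pow_left₀ (abs_nonneg _) hu 2
    rw [sq_abs, mul_pow, sq_abs] at h4
    exact h4
  have h5 : ((n : ℝ) - j) ^ 2 ≤ 2 * ((n : ℝ) - j - x) ^ 2 + 2 * x ^ 2 := by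
    nlinarith [sq_nonneg (((n : ℝ) - j - x) - x)]
  have h6 : x ^ 2 ≤ 1 := by nlinarith
  have h7 : 1 ≤ L ^ 2 := by nlinarith
  nlinarith

theorem card_nd (h1 : StTau) (γ T L : ℝ) (hT : 200 ≤ T) (hL : L = Real.log T) (hL5 : 5 ≤ L) :
    ((nd γ T (8 * T)).card : ℝ) ≤ 5 * (T * L) := by
  unfold nd
  rw [Int.card_Ioc]
  have hT0 : (0 : ℝ) < T := by linarith
  have h2 := vv_lip h1 T (8 * T) (8 * T) (by linarith) (by linarith) le_rfl
  have h3 : Real.log (8 * T) ≤ 3 * L := by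
    rw [Real.log_mul (by norm_num) hT0.ne', ← hL]
    have h4 : Real.log 8 ≤ 7 := by
      have := Real.log_le_sub_one_of_pos (show (0 : ℝ) < 8 by norm_num)
      linarith
    linarith
  have h5 : vv (8 * T) - vv T ≤ 4 * (T * L) := by
    have hpi : (3 : ℝ) < Real.pi := Real.pi_gt_three
    refine h2.trans ?_
    have h6 : Real.log (8 * T) / (2 * Real.pi) ≤ 3 * L / 6 := by
      have h7 : (0 : ℝ) ≤ 3 * L := by linarith
      calc Real.log (8 * T) / (2 * Real.pi) ≤ 3 * L / (2 * Real.pi) :=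
            div_le_div_of_nonneg_right h3 (by positivity)
        _ ≤ 3 * L / 6 := div_le_div_of_nonneg_left h7 (by norm_num) (by linarith)
    have h8 := mul_le_mul_of_nonneg_right h6 (show (0 : ℝ) ≤ 8 * T - T by linarith)
    have h9 : 0 ≤ T * L := by positivity
    nlinarith
  have h6 : ((⌊vv (8 * T) - γ⌋ - ⌊vv T - γ⌋ : ℤ) : ℝ) ≤ vv (8 * T) - vv T + 1 := by
    push_cast
    have e1 := Int.floor_le (vv (8 * T) - γ)
    have e2 := Int.lt_floor_add_one (vv T - γ)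
    linarith
  have h7 : (1 : ℝ) ≤ T * L := by nlinarith
  have h8 : (((⌊vv (8 * T) - γ⌋ - ⌊vv T - γ⌋).toNat : ℕ) : ℝ) ≤ 5 * (T * L) := by
    have h9 : (((⌊vv (8 * T) - γ⌋ - ⌊vv T - γ⌋).toNat : ℕ) : ℤ) =
        max (⌊vv (8 * T) - γ⌋ - ⌊vv T - γ⌋) 0 := Int.toNat_eq_max _
    have h10 : (((⌊vv (8 * T) - γ⌋ - ⌊vv T - γ⌋).toNat : ℕ) : ℝ) =
        max ((⌊vv (8 * T) - γ⌋ - ⌊vv T - γ⌋ : ℤ) : ℝ) 0 := by
      have := congrArg (fun z : ℤ => (z : ℝ)) h9
      push_cast at this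
      push_cast
      exact this
    rw [h10]
    exact max_le (by linarith) (by linarith)
  exact h8

/-- the main estimate -/
theorem step (h1 : StTau) (p h C K0 T L γ x : ℝ) (hp : 1 < p) (hC : 1 ≤ C)
    (hK0 : 0 < K0) (hT : 200 ≤ T) (hL : L = Real.log T) (hL5 : 5 ≤ L)
    (hbig : C * (4 * K0) * L ^ 3 ≤ T) (hx0 : 0 < x) (hx1 : x < 1)
    (hks : ∀ (S : Finset ℤ) (j : ℤ), ∑ n ∈ S, 1 / (1 + ((n : ℝ) - j) ^ 2) ≤ K0)
    (hloc : ∀ t₀ : ℝ, T < t₀ → t₀ ≤ 8 * T → (∀ n : ℤ, vv t₀ ≠ n + γ) →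
      ZZ t₀ ≤ ‖(Real.sin (Real.pi * (vv t₀ - γ)) : ℂ) * ∑ n ∈ nd γ (T / 2) (16 * T),
        riemannZeta (cp (tau (n + γ))) * (Real.exp (-(tau (n + γ) - t₀) ^ 2) : ℂ) /
          ((n : ℂ) + γ - vv t₀)‖ +
        C * Real.log T / T * ∑ n ∈ nd γ (T / 2) (16 * T),
          ZZ (tau (n + γ)) * Real.exp (-(tau (n + γ) - t₀) ^ 2 / 2) + C)
    (hgau : ∀ (S S' : Finset ℤ) (a : ℤ → ℂ) (r r' : ℤ → ℝ),
      ∑ j ∈ S', ‖(Real.sin (Real.pi * x) : ℂ) *
        ∑ n ∈ S, a n * (Real.exp (-(r n - r' j) ^ 2) : ℂ) / ((n : ℂ) - j - x)‖ ^ p ≤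
      h * ∑ n ∈ S, ‖a n‖ ^ p) :
    DD p (γ + x) T (8 * T) ≤
      3 ^ p * ((h + 1) * DD p γ (T / 2) (16 * T) + C ^ p * (5 * (T * L))) := by
  have hp0 : 0 < p := by linarith
  have hT0 : (0 : ℝ) < T := by linarith
  have hL0 : 0 < L := by linarith
  have hvt : ∀ y : ℝ, vv (tau y) = y := h1.2.2.2.2.2.2.1
  have hnd : ∀ γ a b : ℝ, ∀ n : ℤ, n ∈ nd γ a b ↔ a < tau (n + γ) ∧ tau (n + γ) ≤ b :=
    h1.2.2.2.2.2.2.2.2.2.2.2.2
  set S := nd γ (T / 2) (16 * T) with hS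
  set J := nd (γ + x) T (8 * T) with hJ
  have hDS : DD p γ (T / 2) (16 * T) = ∑ n ∈ S, ZZ (tau (n + γ)) ^ p := rfl
  have hDJ : DD p (γ + x) T (8 * T) = ∑ j ∈ J, ZZ (tau (j + (γ + x))) ^ p := by
    show ∑ j ∈ J, ZZ (tau ((j : ℝ) + (γ + x))) ^ p = _
    rfl
  rw [hDJ, hDS]
  set A : ℤ → ℝ := fun j => ‖(Real.sin (Real.pi * x) : ℂ) *
    ∑ n ∈ S, riemannZeta (cp (tau (n + γ))) *
      (Real.exp (-(tau (n + γ) - tau (j + (γ + x))) ^ 2) : ℂ) / ((n : ℂ) - j - x)‖ with hA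
  set κ : ℤ → ℤ → ℝ := fun j n =>
    if j ∈ J ∧ n ∈ S then Real.exp (-(tau (n + γ) - tau (j + (γ + x))) ^ 2 / 2) else 0 with hκ
  set B : ℤ → ℝ := fun j => C * L / T * ∑ n ∈ S, κ j n * ZZ (tau (n + γ)) with hB
  have hκ0 : ∀ j n, 0 ≤ κ j n := by
    intro j n
    simp only [hκ]
    split_ifs
    · exact (Real.exp_pos _).le
    · exact le_rfl
  have hB0 : ∀ j, 0 ≤ B j := fun j => mul_nonneg (by positivity)
    (Finset.sum_nonneg fun n _ => mul_nonneg (hκ0 j n) (ZZ_nonneg _))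
  -- pointwise
  have hpt : ∀ j ∈ J, ZZ (tau (j + (γ + x))) ≤ A j + B j + C := by
    intro j hj
    obtain ⟨hj1, hj2⟩ := (hnd (γ + x) T (8 * T) j).1 hj
    have hv : vv (tau ((j : ℝ) + (γ + x))) = j + (γ + x) := hvt _
    have hne : ∀ n : ℤ, vv (tau ((j : ℝ) + (γ + x))) ≠ n + γ := by
      intro n hn
      rw [hv] at hn
      have h2 : x = ((n - j : ℤ) : ℝ) := by
        push_cast
        linarith
      rw [h2] at hx0 hx1
      have h3 : (0 : ℤ) < n - j := by exact_mod_cast hx0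
      have h4 : n - j < (1 : ℤ) := by exact_mod_cast hx1
      omega
    have h2 := hloc _ hj1 hj2 hne
    rw [hv] at h2
    have h3 : ‖(Real.sin (Real.pi * ((j : ℝ) + (γ + x) - γ)) : ℂ) * ∑ n ∈ S,
        riemannZeta (cp (tau (n + γ))) *
          (Real.exp (-(tau (n + γ) - tau ((j : ℝ) + (γ + x))) ^ 2) : ℂ) /
          ((n : ℂ) + γ - (((j : ℝ) + (γ + x) : ℝ) : ℂ))‖ = A j := by
      simp only [hA]
      rw [norm_mul, norm_mul]
      congr 1
      · rw [Complex.norm_real, Complex.norm_real, Real.norm_eq_abs, Real.norm_eq_abs,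
          show (j : ℝ) + (γ + x) - γ = (j : ℝ) + x by ring, abs_sin_shift]
      · congr 1
        refine Finset.sum_congr rfl fun n _ => ?_
        congr 1
        push_cast
        ring
    have h4 : C * Real.log T / T * ∑ n ∈ S,
        ZZ (tau (n + γ)) * Real.exp (-(tau (n + γ) - tau ((j : ℝ) + (γ + x))) ^ 2 / 2) = B j := by
      simp only [hB]
      rw [← hL]
      congr 1
      refine Finset.sum_congr rfl fun n hn => ?_
      simp only [hκ]
      rw [if_pos ⟨hj, hn⟩, mul_comm]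
    rw [h3, h4] at h2
    exact h2
  -- kernel bound
  have hker : ∀ j n, κ j n ≤ 4 * L ^ 2 * (1 / (1 + ((n : ℝ) - j) ^ 2)) := by
    intro j n
    simp only [hκ]
    split_ifs with hjn
    · obtain ⟨hj1, hj2⟩ := (hnd (γ + x) T (8 * T) j).1 hjn.1
      obtain ⟨hn1, hn2⟩ := (hnd γ (T / 2) (16 * T) n).1 hjn.2
      refine ker_bound L x _ n j (by linarith) hx0.le hx1.le ?_
      have h2 := vv_lip_abs h1 (tau ((j : ℝ) + (γ + x))) (tau ((n : ℝ) + γ)) (16 * T)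
        (by linarith) (by linarith) (by linarith) hn2
      rw [hvt, hvt] at h2
      have h3 : (n : ℝ) + γ - ((j : ℝ) + (γ + x)) = (n : ℝ) - j - x := by ring
      rw [h3] at h2
      refine h2.trans (mul_le_mul_of_nonneg_right ?_ (abs_nonneg _))
      have hpi : (3 : ℝ) < Real.pi := Real.pi_gt_three
      rw [div_le_iff₀ (by positivity), Real.log_mul (by norm_num) hT0.ne', ← hL]
      have h4 : Real.log 16 ≤ 15 := by
        have := Real.log_le_sub_one_of_pos (show (0 : ℝ) < 16 by norm_num)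
        linarith
      nlinarith
    · positivity
  have hK : 0 < 4 * L ^ 2 * K0 := by positivity
  have hrow : ∀ j ∈ J, ∑ n ∈ S, κ j n ≤ 4 * L ^ 2 * K0 := by
    intro j _
    calc ∑ n ∈ S, κ j n ≤ ∑ n ∈ S, 4 * L ^ 2 * (1 / (1 + ((n : ℝ) - j) ^ 2)) :=
          Finset.sum_le_sum fun n _ => hker j n
      _ = 4 * L ^ 2 * ∑ n ∈ S, 1 / (1 + ((n : ℝ) - j) ^ 2) := by rw [Finset.mul_sum]
      _ ≤ _ := mul_le_mul_of_nonneg_left (hks S j) (by positivity)
  have hcolm : ∀ n ∈ S, ∑ j ∈ J, κ j n ≤ 4 * L ^ 2 * K0 := by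
    intro n _
    calc ∑ j ∈ J, κ j n ≤ ∑ j ∈ J, 4 * L ^ 2 * (1 / (1 + ((j : ℝ) - n) ^ 2)) := by
          refine Finset.sum_le_sum fun j _ => (hker j n).trans (le_of_eq ?_)
          congr 3
          ring
      _ = 4 * L ^ 2 * ∑ j ∈ J, 1 / (1 + ((j : ℝ) - n) ^ 2) := by rw [Finset.mul_sum]
      _ ≤ _ := mul_le_mul_of_nonneg_left (hks J n) (by positivity)
  have hsch := schur p hp.le S J κ hκ0 (fun n => ZZ (tau (n + γ))) (fun n => ZZ_nonneg _)
    (4 * L ^ 2 * K0) hK hrow hcolm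
  have hsumB : ∑ j ∈ J, B j ^ p ≤ ∑ n ∈ S, ZZ (tau (n + γ)) ^ p := by
    have hc0 : 0 ≤ C * L / T := by positivity
    have h2 : ∀ j, B j ^ p = (C * L / T) ^ p * (∑ n ∈ S, κ j n * ZZ (tau (n + γ))) ^ p := by
      intro j
      simp only [hB]
      exact Real.mul_rpow hc0 (Finset.sum_nonneg fun n _ => mul_nonneg (hκ0 j n) (ZZ_nonneg _))
    rw [Finset.sum_congr rfl fun j _ => h2 j, ← Finset.mul_sum]
    calc (C * L / T) ^ p * ∑ j ∈ J, (∑ n ∈ S, κ j n * ZZ (tau (n + γ))) ^ p ≤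
        (C * L / T) ^ p * ((4 * L ^ 2 * K0) ^ p * ∑ n ∈ S, ZZ (tau (n + γ)) ^ p) :=
          mul_le_mul_of_nonneg_left hsch (Real.rpow_nonneg hc0 _)
      _ = (C * L / T * (4 * L ^ 2 * K0)) ^ p * ∑ n ∈ S, ZZ (tau (n + γ)) ^ p := by
          rw [Real.mul_rpow hc0 hK.le]
          ring
      _ ≤ 1 * ∑ n ∈ S, ZZ (tau (n + γ)) ^ p := by
          refine mul_le_mul_of_nonneg_right ?_
            (Finset.sum_nonneg fun n _ => Real.rpow_nonneg (ZZ_nonneg _) p)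
          refine Real.rpow_le_one (by positivity) ?_ hp0.le
          rw [div_mul_eq_mul_div, div_le_one hT0]
          calc C * L * (4 * L ^ 2 * K0) = C * (4 * K0) * L ^ 3 := by ring
            _ ≤ T := hbig
      _ = _ := one_mul _
  have hsumA : ∑ j ∈ J, A j ^ p ≤ h * ∑ n ∈ S, ZZ (tau (n + γ)) ^ p :=
    hgau S J (fun n => riemannZeta (cp (tau (n + γ)))) (fun n => tau (n + γ))
      (fun j => tau (j + (γ + x)))
  have hcard := card_nd h1 (γ + x) T L hT hL hL5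
  have hsumC : ∑ j ∈ J, C ^ p ≤ C ^ p * (5 * (T * L)) := by
    rw [Finset.sum_const, nsmul_eq_mul, mul_comm]
    exact mul_le_mul_of_nonneg_left hcard (Real.rpow_nonneg (by linarith) _)
  calc ∑ j ∈ J, ZZ (tau (j + (γ + x))) ^ p ≤ ∑ j ∈ J, 3 ^ p * (A j ^ p + B j ^ p + C ^ p) := by
        refine Finset.sum_le_sum fun j hj => ?_
        refine (Real.rpow_le_rpow (ZZ_nonneg _) (hpt j hj) hp0.le).trans ?_
        exact three p _ _ _ hp0 (norm_nonneg _) (hB0 j) (by linarith)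
    _ = 3 ^ p * (∑ j ∈ J, A j ^ p + ∑ j ∈ J, B j ^ p + ∑ j ∈ J, C ^ p) := by
        rw [← Finset.mul_sum, Finset.sum_add_distrib, Finset.sum_add_distrib]
    _ ≤ 3 ^ p * ((h + 1) * ∑ n ∈ S, ZZ (tau (n + γ)) ^ p + C ^ p * (5 * (T * L))) := by
        refine mul_le_mul_of_nonneg_left ?_ (by positivity)
        linarith

theorem gp_ll (h1 : Pool.Agent.W188.GP.StTau) (h2 : Pool.Agent.W188.GP.StLocB)
    (h3 : Pool.Agent.W188.GP.StGau) : Pool.Agent.W188.GP.StLL := by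
  intro p hp
  obtain ⟨C1, T1, hloc⟩ := h2
  obtain ⟨h, hh, hgau⟩ := h3 p hp
  obtain ⟨K0, hK0, hks⟩ := ksum
  set C : ℝ := |C1| + 1 with hCd
  have hC1 : C1 ≤ C := by
    have := le_abs_self C1
    linarith
  have hC : 1 ≤ C := by
    have := abs_nonneg C1
    linarith
  have hlo : ∀ᶠ T : ℝ in atTop, C * (4 * K0) * Real.log T ^ 3 ≤ T := by
    have h4 := (Real.isLittleO_pow_log_id_atTop (n := 3)).bound
      (show (0 : ℝ) < (C * (4 * K0))⁻¹ by positivity)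
    filter_upwards [h4, eventually_ge_atTop 1] with T hT hT1
    have h5 : 0 ≤ Real.log T ^ 3 := pow_nonneg (Real.log_nonneg hT1) 3
    rw [Real.norm_of_nonneg h5] at hT
    have h6 : ‖(id T : ℝ)‖ = T := Real.norm_of_nonneg (by simpa using (by linarith : (0 : ℝ) ≤ T))
    rw [h6] at hT
    have h7 := mul_le_mul_of_nonneg_left hT (show (0 : ℝ) ≤ C * (4 * K0) by positivity)
    have h8 : C * (4 * K0) ≠ 0 := by positivity
    rwa [mul_inv_cancel_left₀ h8] at h7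
  obtain ⟨T2, hT2⟩ := eventually_atTop.1 hlo
  refine ⟨3 ^ p * ((h + 1) + C ^ p * 5) + 1, max (max T1 T2) (max 200 (Real.exp 5)), by positivity,
    fun T γ γ' hT => ?_⟩
  have hTT1 : T1 ≤ T := le_trans (le_trans (le_max_left _ _) (le_max_left _ _)) hT
  have hTT2 : T2 ≤ T := le_trans (le_trans (le_max_right _ _) (le_max_left _ _)) hT
  have hT200 : 200 ≤ T := le_trans (le_trans (le_max_left _ _) (le_max_right _ _)) hT
  have hTe : Real.exp 5 ≤ T := le_trans (le_trans (le_max_right _ _) (le_max_right _ _)) hT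
  have hT0 : (0 : ℝ) < T := by linarith
  have hL5 : 5 ≤ Real.log T := (Real.le_log_iff_exp_le hT0).2 hTe
  have hTL : 0 ≤ T * Real.log T := by positivity
  have hD0 : 0 ≤ DD p γ (T / 2) (16 * T) := DD_nonneg _ _ _ _
  have hCp : 0 ≤ C ^ p := Real.rpow_nonneg (by linarith) _
  have h3p : (0 : ℝ) < 3 ^ p := by positivity
  -- reduction to a fractional shift
  set x : ℝ := Int.fract (γ' - γ) with hx
  have hγ' : γ' = (γ + x) + (⌊γ' - γ⌋ : ℤ) := by
    have := Int.fract_add_floor (γ' - γ)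
    rw [← hx] at this
    linarith
  rw [hγ', DD_shift]
  have hx0 : 0 ≤ x := Int.fract_nonneg _
  have hx1 : x < 1 := Int.fract_lt_one _
  rcases hx0.eq_or_lt with h0 | h0
  · rw [← h0, add_zero]
    have hnd : ∀ γ a b : ℝ, ∀ n : ℤ, n ∈ nd γ a b ↔ a < tau (n + γ) ∧ tau (n + γ) ≤ b :=
      h1.2.2.2.2.2.2.2.2.2.2.2.2
    have hsub : DD p γ T (8 * T) ≤ DD p γ (T / 2) (16 * T) := by
      refine Finset.sum_le_sum_of_subset_of_nonneg ?_
        fun _ _ _ => Real.rpow_nonneg (ZZ_nonneg _) _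
      intro n hn
      rw [hnd] at hn ⊢
      exact ⟨by linarith [hn.1], by linarith [hn.2]⟩
    have e1 : 0 ≤ 3 ^ p * ((h + 1) + C ^ p * 5) := by positivity
    nlinarith [mul_nonneg e1 (add_nonneg hD0 hTL)]
  · have hloc' : ∀ t₀ : ℝ, T < t₀ → t₀ ≤ 8 * T → (∀ n : ℤ, vv t₀ ≠ n + γ) →
        ZZ t₀ ≤ ‖(Real.sin (Real.pi * (vv t₀ - γ)) : ℂ) * ∑ n ∈ nd γ (T / 2) (16 * T),
          riemannZeta (cp (tau (n + γ))) * (Real.exp (-(tau (n + γ) - t₀) ^ 2) : ℂ) /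
            ((n : ℂ) + γ - vv t₀)‖ +
          C * Real.log T / T * ∑ n ∈ nd γ (T / 2) (16 * T),
            ZZ (tau (n + γ)) * Real.exp (-(tau (n + γ) - t₀) ^ 2 / 2) + C := by
      intro t₀ ht1 ht2 ht3
      refine (hloc T γ t₀ hTT1 ht1 ht2 ht3).trans ?_
      have e1 : 0 ≤ ∑ n ∈ nd γ (T / 2) (16 * T),
          ZZ (tau (n + γ)) * Real.exp (-(tau (n + γ) - t₀) ^ 2 / 2) :=
        Finset.sum_nonneg fun n _ => mul_nonneg (ZZ_nonneg _) (Real.exp_pos _).le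
      have e2 : C1 * Real.log T / T ≤ C * Real.log T / T := by
        refine div_le_div_of_nonneg_right ?_ hT0.le
        exact mul_le_mul_of_nonneg_right hC1 (by linarith)
      have e3 := mul_le_mul_of_nonneg_right e2 e1
      linarith
    have hst := step h1 p h C K0 T (Real.log T) γ x hp hC hK0 hT200 rfl hL5 (hT2 T hTT2) h0 hx1
      hks hloc' (fun S S' a r r' => hgau x h0 hx1 S S' a r r')
    refine hst.trans ?_
    have e1 : 0 ≤ C ^ p * 5 * DD p γ (T / 2) (16 * T) := by positivity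
    have e2 : 0 ≤ (h + 1) * (T * Real.log T) := by positivity
    have e3 : (h + 1) * DD p γ (T / 2) (16 * T) + C ^ p * (5 * (T * Real.log T)) ≤
        ((h + 1) + C ^ p * 5) * (DD p γ (T / 2) (16 * T) + T * Real.log T) := by nlinarith
    have e4 := mul_le_mul_of_nonneg_left e3 h3p.le
    nlinarith

end Pool.Agent.W108.GPL
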